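import Mathlib

set_option autoImplicit false
set_option maxHeartbeats 400000

/-!
# The Grundy values of 2-colour flag coloring are unbounded

A contracted position is a connected bipartite graph with parts `A`, `B`.  If both parts contain a
*full* vertex (adjacent to the whole other part), the move at `a ∈ A` gives the position induced
on `A ∖ {a}` and `(B ∖ N(a)) ∪ {z}` with `z` full, and all later positions but stars are of this
kind.  In terms of the *bipartite complement* `C` the move at `a` keeps the `C`-neighbours of `a`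
and adds an isolated vertex.  By induction, adding two full vertices to a part which already has
two of them does not change the Grundy value.

Let `V` be the set of the Grundy values of the positions having exactly one designated full vertex
in `B`, at least two in `A`, and `|A|` even.  If all Grundy values were at most `N`, choose a
position `H_n` for every `n ∈ V`, and let `G` be the position whose bipartite complement is the
disjoint union of the complements of the `H_n` (without the designated full vertices), each with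
a new vertex `x_n ∈ A` joined to its `B`-part, and isolated vertices, exactly one of them
designated in `A`, two or three in `B`.  The move at `x_n` turns everything outside the block
`H_n` into full vertices of `A`, so that its Grundy value is `n`, if parities are chosen well.
Hence the Grundy value of `G` is not in `V`; but the mirror image of `G` is one of the positions
defining `V`.
-/

namespace Pool.Agent.Results.MP_08830e_co.Unbounded

open scoped Classical
open Finset (univ range)

/-- the least natural number outside `s` -/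
noncomputable def mex (s : Set ℕ) : ℕ := sInf {n | n ∉ s}

section Game

variable {V : Type*}

/-- the graph whose edges are the edges of `G` with equally coloured ends; its connected
components are the monochromatic components of the colouring `χ` of `G` -/
def mono (G : SimpleGraph V) (χ : V → Bool) : SimpleGraph V where
  Adj u w := G.Adj u w ∧ χ u = χ w
  symm := ⟨fun _ _ h => ⟨h.1.symm, h.2.symm⟩⟩
  loopless := ⟨fun _ h => h.1.ne rfl⟩

/-- `v` has a neighbour of the other colour -/
def Legal (G : SimpleGraph V) (χ : V → Bool) (v : V) : Prop := ∃ w, G.Adj v w ∧ χ w ≠ χ v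

/-- the colouring after recolouring the monochromatic component of `v` with the other colour -/
noncomputable def recolour (G : SimpleGraph V) (χ : V → Bool) (v : V) : V → Bool :=
  fun u => if (mono G χ).Reachable v u then !χ v else χ u

/-- the number of (ordered) edges with differently coloured ends -/
noncomputable def bich [Fintype V] (G : SimpleGraph V) (χ : V → Bool) : ℕ :=
  ((univ : Finset (V × V)).filter fun e => G.Adj e.1 e.2 ∧ χ e.1 ≠ χ e.2).card

theorem reach_col {G : SimpleGraph V} {χ : V → Bool} {u w : V}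
    (h : (mono G χ).Reachable u w) : χ u = χ w := by
  obtain ⟨p⟩ := h
  induction p with
  | nil => rfl
  | cons h _ ih => exact h.2.trans ih

theorem recolour_eq {G : SimpleGraph V} {χ : V → Bool} (v : V) {u w : V}
    (h : G.Adj u w) (h2 : χ u = χ w) : recolour G χ v u = recolour G χ v w := by
  have h3 : (mono G χ).Adj u w := ⟨h, h2⟩
  have h4 : (mono G χ).Reachable v u ↔ (mono G χ).Reachable v w :=
    ⟨fun h => h.trans h3.reachable, fun h => h.trans h3.symm.reachable⟩
  unfold recolour
  by_cases h5 : (mono G χ).Reachable v u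
  · rw [if_pos h5, if_pos (h4.1 h5)]
  · rw [if_neg h5, if_neg (fun h => h5 (h4.2 h)), h2]

theorem bich_lt [Fintype V] {G : SimpleGraph V} {χ : V → Bool} {v : V} (h : Legal G χ v) :
    bich G (recolour G χ v) < bich G χ := by
  obtain ⟨w, h1, h2⟩ := h
  apply Finset.card_lt_card
  rw [Finset.ssubset_iff_of_subset]
  · refine ⟨(v, w), ?_, ?_⟩
    · simp only [Finset.mem_filter, Finset.mem_univ, true_and]
      exact ⟨h1, fun h => h2 h.symm⟩
    · simp only [Finset.mem_filter, Finset.mem_univ, true_and, not_and, not_not]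
      intro _
      have h3 : ¬ (mono G χ).Reachable v w := fun h => h2 (reach_col h).symm
      unfold recolour
      rw [if_pos (SimpleGraph.Reachable.refl _), if_neg h3]
      cases hv : χ v <;> cases hw : χ w <;> simp_all
  · intro e he
    simp only [Finset.mem_filter, Finset.mem_univ, true_and] at he ⊢
    exact ⟨he.1, fun h => he.2 (recolour_eq v he.1 h)⟩

/-- the Grundy value of the position `(G, χ)` -/
noncomputable def grundy [Fintype V] (G : SimpleGraph V) (χ : V → Bool) : ℕ :=
  mex {n | ∃ v, ∃ _ : Legal G χ v, grundy G (recolour G χ v) = n}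
termination_by bich G χ
decreasing_by exact bich_lt ‹_›

end Game

theorem mex_notMem {s : Set ℕ} (h : s.Finite) : mex s ∉ s := by
  have h1 : {n | n ∉ s}.Nonempty := by
    obtain ⟨n, hn⟩ := h.exists_notMem
    exact ⟨n, hn⟩
  exact Nat.sInf_mem h1

theorem mem_of_lt_mex {s : Set ℕ} {n : ℕ} (h : n < mex s) : n ∈ s := by
  by_contra h1
  exact Nat.notMem_of_lt_sInf h h1

theorem mex_eq {s : Set ℕ} {n : ℕ} (h1 : n ∉ s) (h2 : ∀ m < n, m ∈ s) : mex s = n := by
  apply le_antisymm
  · exact Nat.sInf_le h1
  · by_contra h3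
    push Not at h3
    have h4 : {n | n ∉ s}.Nonempty := ⟨n, h1⟩
    exact Nat.sInf_mem h4 (h2 _ h3)

/-- the Grundy value of the star with `k` leaves -/
def st (k : ℕ) : ℕ := if k = 0 then 0 else if k % 2 = 1 then 1 else 2

theorem mex_st (k : ℕ) : mex {n | n = st k ∨ n = 0} = st (k + 1) := by
  rcases Nat.even_or_odd' k with ⟨l, rfl | rfl⟩
  · rcases Nat.eq_zero_or_pos l with rfl | hl
    · apply mex_eq
      · simp [st]
      · intro m hm
        simp [st] at hm ⊢
        omega
    · have h1 : st (2 * l) = 2 := by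
        unfold st
        rw [if_neg (by omega), if_neg (by omega)]
      have h2 : st (2 * l + 1) = 1 := by
        unfold st
        rw [if_neg (by omega), if_pos (by omega)]
      rw [h1, h2]
      apply mex_eq
      · simp
      · intro m hm
        simp
        omega
  · have h1 : st (2 * l + 1) = 1 := by
      unfold st
      rw [if_neg (by omega), if_pos (by omega)]
    have h2 : st (2 * l + 1 + 1) = 2 := by
      unfold st
      rw [if_neg (by omega), if_neg (by omega)]
    rw [h1, h2]
    apply mex_eq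
    · simp
    · intro m hm
      simp
      omega

theorem st_par {a b : ℕ} (ha : 1 ≤ a) (hb : 1 ≤ b) (h : a % 2 = b % 2) : st a = st b := by
  unfold st
  rw [if_neg (by omega : ¬ a = 0), if_neg (by omega : ¬ b = 0), h]

section Rep

variable {V W : Type*}

/-- the map `c` contracts the monochromatic components of `(G, χ)` to the vertices in `M` of the
graph with adjacency `D`, properly coloured by `κ` -/
structure Rep (G : SimpleGraph V) (χ : V → Bool) (κ : W → Bool) (D : W → W → Prop) (M : Set W)
    (c : V → W) : Prop where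
  mem : ∀ v, c v ∈ M
  surj : ∀ w ∈ M, ∃ v, c v = w
  col : ∀ v, χ v = κ (c v)
  conn : ∀ u v, c u = c v → (mono G χ).Reachable u v
  adj : ∀ u v, G.Adj u v → c u = c v ∨ D (c u) (c v)
  edge : ∀ x ∈ M, ∀ y ∈ M, D x y → ∃ u v, c u = x ∧ c v = y ∧ G.Adj u v

variable {G : SimpleGraph V} {χ : V → Bool} {κ : W → Bool} {D : W → W → Prop} {M : Set W}
  {c : V → W}

theorem Rep.reach (hD : ∀ x y, D x y → κ x ≠ κ y) (h : Rep G χ κ D M c) {u v : V} :
    (mono G χ).Reachable u v ↔ c u = c v := by
  constructor
  · rintro ⟨p⟩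
    induction p with
    | nil => rfl
    | cons h1 _ ih =>
      rw [← ih]
      rcases h.adj _ _ h1.1 with h2 | h2
      · exact h2
      · exfalso
        apply hD _ _ h2
        rw [← h.col, ← h.col]
        exact h1.2
  · exact h.conn u v

theorem Rep.recolour (hD : ∀ x y, D x y → κ x ≠ κ y) (h : Rep G χ κ D M c) (v u : V) :
    recolour G χ v u = if c u = c v then !κ (c v) else κ (c u) := by
  unfold Unbounded.recolour
  by_cases h1 : c u = c v
  · rw [if_pos h1, if_pos ((h.reach hD).2 h1.symm), h.col]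
  · rw [if_neg h1, if_neg (fun h2 => h1 ((h.reach hD).1 h2).symm), h.col]

theorem Rep.step (hD : ∀ x y, D x y → κ x ≠ κ y) (hs : ∀ x y, D x y → D y x)
    (h : Rep G χ κ D M c) {w f : W} {v : V} (hv : c v = w) (hf : κ f ≠ κ w)
    (hf2 : ∀ x ∈ M, x ≠ w → κ x = κ w → (D x f ↔ ∃ y ∈ M, D w y ∧ D x y))
    (hf3 : f ∈ M → D w f) :
    Rep G (Unbounded.recolour G χ v) κ D {x | x = f ∨ (x ∈ M ∧ x ≠ w ∧ ¬ D w x)}
      (fun u => if c u = w ∨ D w (c u) then f else c u) := by
  have hle : mono G χ ≤ mono G (Unbounded.recolour G χ v) := by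
    intro a b hab
    exact ⟨hab.1, recolour_eq v hab.1 hab.2⟩
  have hbool : ∀ a b d : Bool, a ≠ b → d ≠ b → a = d := by decide
  have hw : w ∈ M := hv ▸ h.mem v
  have hwf : w ≠ f := fun h => hf (by rw [h])
  -- every merged vertex is reachable from `v`
  have hmer : ∀ u, (c u = w ∨ D w (c u)) →
      (mono G (Unbounded.recolour G χ v)).Reachable v u := by
    intro u hu
    rcases hu with hu | hu
    · exact (h.conn v u (hv.trans hu.symm)).mono hle
    · obtain ⟨u1, v1, h1, h2, h3⟩ := h.edge w hw (c u) (h.mem u) hu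
      have h4 : (mono G (Unbounded.recolour G χ v)).Adj u1 v1 := by
        refine ⟨h3, ?_⟩
        rw [h.recolour hD, h.recolour hD, if_pos (h1.trans hv.symm), if_neg]
        · rw [hv, h2]
          have := hD _ _ hu
          cases h5 : κ w <;> cases h6 : κ (c u) <;> simp_all
        · rw [h2, hv]
          intro h5
          exact hD _ _ hu (by rw [h5])
      exact ((h.conn v u1 (hv.trans h1.symm)).mono hle).trans
        (h4.reachable.trans ((h.conn v1 u h2).mono hle))
  -- a vertex is mapped to `f` iff it is merged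
  have hfi : ∀ u, (if c u = w ∨ D w (c u) then f else c u) = f ↔ (c u = w ∨ D w (c u)) := by
    intro u
    constructor
    · intro h1
      by_contra h2
      rw [if_neg h2] at h1
      apply h2
      right
      rw [h1]
      exact hf3 (h1 ▸ h.mem u)
    · intro h1
      rw [if_pos h1]
  refine ⟨?_, ?_, ?_, ?_, ?_, ?_⟩
  · intro u
    by_cases h1 : c u = w ∨ D w (c u)
    · rw [if_pos h1]; left; rfl
    · rw [if_neg h1]
      right
      push Not at h1
      exact ⟨h.mem u, h1.1, h1.2⟩
  · rintro x (rfl | ⟨h1, h2, h3⟩)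
    · exact ⟨v, by rw [if_pos (Or.inl hv)]⟩
    · obtain ⟨u, rfl⟩ := h.surj x h1
      exact ⟨u, by rw [if_neg (by push Not; exact ⟨h2, h3⟩)]⟩
  · intro u
    rw [h.recolour hD]
    by_cases h1 : c u = w
    · rw [if_pos (h1.trans hv.symm), if_pos (Or.inl h1), hv]
      cases h5 : κ w <;> cases h6 : κ f <;> simp_all
    · rw [if_neg (by rw [hv]; exact h1)]
      by_cases h2 : D w (c u)
      · rw [if_pos (Or.inr h2)]
        exact hbool _ _ _ (hD _ _ h2).symm hf
      · rw [if_neg (by push Not; exact ⟨h1, h2⟩)]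
  · intro u1 u2 h12
    by_cases h1 : c u1 = w ∨ D w (c u1)
    · have h2 : c u2 = w ∨ D w (c u2) := by
        rw [← hfi u2, ← h12, hfi u1]
        exact h1
      exact (hmer u1 h1).symm.trans (hmer u2 h2)
    · have h2 : ¬ (c u2 = w ∨ D w (c u2)) := by
        rw [← hfi u2, ← h12, hfi u1]
        exact h1
      simp only [if_neg h1, if_neg h2] at h12
      exact (h.conn u1 u2 h12).mono hle
  · -- adjacency
    have key : ∀ u1 u2, G.Adj u1 u2 → (c u1 = w ∨ D w (c u1)) → ¬ (c u2 = w ∨ D w (c u2)) →
        D (c u2) f := by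
      intro u1 u2 h12 h1 h2
      push Not at h2
      have h3 : D (c u2) (c u1) := by
        rcases h.adj _ _ h12.symm with h3 | h3
        · exfalso
          rw [← h3] at h1
          rcases h1 with h1 | h1
          · exact h2.1 h1
          · exact h2.2 h1
        · exact h3
      rcases h1 with h1 | h1
      · exfalso
        rw [h1] at h3
        exact h2.2 (hs _ _ h3)
      · have h4 : κ (c u2) = κ w := hbool _ _ _ (hD _ _ h3) (hD _ _ h1)
        exact (hf2 _ (h.mem u2) h2.1 h4).2 ⟨c u1, h.mem u1, h1, h3⟩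
    intro u1 u2 h12
    by_cases h1 : c u1 = w ∨ D w (c u1)
    · by_cases h2 : c u2 = w ∨ D w (c u2)
      · left; simp only [if_pos h1, if_pos h2]
      · right
        simp only [if_pos h1, if_neg h2]
        exact hs _ _ (key u1 u2 h12 h1 h2)
    · by_cases h2 : c u2 = w ∨ D w (c u2)
      · right
        simp only [if_neg h1, if_pos h2]
        exact key u2 u1 h12.symm h2 h1
      · simp only [if_neg h1, if_neg h2]
        exact h.adj _ _ h12
  · -- edges
    have key : ∀ x, x ∈ M → x ≠ w → ¬ D w x → D x f → ∃ u v, (c u = w ∨ D w (c u)) ∧ c v = x ∧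
        G.Adj u v := by
      intro x h1 h2 h3 h4
      have h5 : κ x = κ w := hbool _ _ _ (hD _ _ h4) hf.symm
      obtain ⟨y, h6, h7, h8⟩ := (hf2 x h1 h2 h5).1 h4
      obtain ⟨u1, v1, h9, h10, h11⟩ := h.edge x h1 y h6 h8
      exact ⟨v1, u1, Or.inr (by rw [h10]; exact h7), h9, h11.symm⟩
    rintro x (rfl | ⟨hx1, hx2, hx3⟩) y (rfl | ⟨hy1, hy2, hy3⟩) hxy
    · exact absurd rfl (hD _ _ hxy)
    · obtain ⟨u1, u2, h1, h2, h3⟩ := key y hy1 hy2 hy3 (hs _ _ hxy)
      refine ⟨u1, u2, by rw [if_pos h1], ?_, h3⟩
      rw [if_neg, h2]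
      rw [h2]; push Not; exact ⟨hy2, hy3⟩
    · obtain ⟨u1, u2, h1, h2, h3⟩ := key x hx1 hx2 hx3 hxy
      refine ⟨u2, u1, ?_, by rw [if_pos h1], h3.symm⟩
      rw [if_neg, h2]
      rw [h2]; push Not; exact ⟨hx2, hx3⟩
    · obtain ⟨u1, u2, h1, h2, h3⟩ := h.edge x hx1 y hy1 hxy
      refine ⟨u1, u2, ?_, ?_, h3⟩
      · rw [if_neg, h1]
        rw [h1]; push Not; exact ⟨hx2, hx3⟩
      · rw [if_neg, h2]
        rw [h2]; push Not; exact ⟨hy2, hy3⟩

theorem Rep.nbr (h : Rep G χ κ D M c) {v : V} (hv : Legal G χ v) : ∃ y ∈ M, D (c v) y := by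
  obtain ⟨w, h1, h2⟩ := hv
  refine ⟨c w, h.mem w, ?_⟩
  rcases h.adj _ _ h1 with h3 | h3
  · exfalso
    apply h2
    rw [h.col, h.col, h3]
  · exact h3

theorem Rep.legal (hD : ∀ x y, D x y → κ x ≠ κ y) (h : Rep G χ κ D M c) {x y : W} (hx : x ∈ M)
    (hy : y ∈ M) (hxy : D x y) : ∃ v, c v = x ∧ Legal G χ v := by
  obtain ⟨u, v, h1, h2, h3⟩ := h.edge x hx y hy hxy
  refine ⟨u, h1, v, h3, ?_⟩
  rw [h.col, h.col, h1, h2]
  exact (hD _ _ hxy).symm

theorem star_val [Fintype V] (hD : ∀ x y, D x y → κ x ≠ κ y) (hs : ∀ x y, D x y → D y x) :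
    ∀ (k : ℕ) (L : Finset W) (f : W) (c : V → W) (χ : V → Bool), L.card = k →
      (∀ x ∈ L, κ x ≠ κ f) → (∀ x ∈ L, D x f) →
      Rep G χ κ D {x | x = f ∨ x ∈ L} c → grundy G χ = st k := by
  intro k
  induction k with
  | zero =>
    intro L f c χ hL h1 h2 h
    rw [Finset.card_eq_zero] at hL
    subst hL
    rw [grundy]
    apply mex_eq
    · rintro ⟨v, hv, -⟩
      obtain ⟨y, hy1, hy2⟩ := h.nbr hv
      simp only [Finset.notMem_empty, or_false, Set.mem_ofPred_eq] at hy1
      have h3 := h.mem v
      simp only [Finset.notMem_empty, or_false, Set.mem_ofPred_eq] at h3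
      rw [hy1, h3] at hy2
      exact hD _ _ hy2 rfl
    · intro m hm
      simp [st] at hm
  | succ k ih =>
    intro L f c χ hL h1 h2 h
    have hbool : ∀ a b d : Bool, a ≠ b → d ≠ b → a = d := by decide
    have hfL : f ∉ L := fun h3 => h1 f h3 rfl
    -- moves at leaves
    have hA : ∀ v, c v ∈ L → grundy G (Unbounded.recolour G χ v) = st k := by
      intro v hv
      have h3 := h.step hD hs (w := c v) (f := f) (v := v) rfl (h1 _ hv).symm
        (by
          rintro x (rfl | hx) hx2 hx3
          · exact absurd hx3.symm (h1 _ hv)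
          · exact ⟨fun _ => ⟨f, Or.inl rfl, h2 _ hv, h2 _ hx⟩, fun _ => h2 _ hx⟩)
        (fun _ => h2 _ hv)
      refine ih (L.erase (c v)) f (fun u => if c u = c v ∨ D (c v) (c u) then f else c u) _
        ?_ ?_ ?_ ?_
      · rw [Finset.card_erase_of_mem hv, hL]; rfl
      · intro x hx; exact h1 x (Finset.mem_of_mem_erase hx)
      · intro x hx; exact h2 x (Finset.mem_of_mem_erase hx)
      · convert h3 using 1
        ext x
        simp only [Set.mem_ofPred_eq, Finset.mem_erase]
        constructor
        · rintro (rfl | ⟨h4, h5⟩)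
          · left; rfl
          · right
            refine ⟨Or.inr h5, h4, ?_⟩
            intro h6
            exact hD _ _ h6 (hbool _ _ _ (h1 _ hv) (h1 _ h5))
        · rintro (rfl | ⟨h4 | h4, h5, h6⟩)
          · left; rfl
          · left; exact h4
          · right; exact ⟨h5, h4⟩
    -- moves at the centre
    have hB : ∀ v, c v = f → grundy G (Unbounded.recolour G χ v) = 0 := by
      intro v hv
      have hne : L.Nonempty := by
        rw [← Finset.card_pos, hL]; omega
      obtain ⟨x0, hx0⟩ := hne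
      have h3 := h.step hD hs (w := f) (f := x0) (v := v) hv (h1 _ hx0)
        (by
          rintro x (rfl | hx) hx2 hx3
          · exact absurd rfl hx2
          · exact absurd hx3 (h1 _ hx))
        (fun _ => hs _ _ (h2 _ hx0))
      rw [grundy]
      apply mex_eq
      · rintro ⟨u, hu, -⟩
        obtain ⟨y, hy1, hy2⟩ := h3.nbr hu
        have h4 := h3.mem u
        have h5 : ∀ x, (x = x0 ∨ (x ∈ {x | x = f ∨ x ∈ L} ∧ x ≠ f ∧ ¬ D f x)) → x = x0 := by
          rintro x (h5 | ⟨h5 | h5, h6, h7⟩)
          · exact h5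
          · exact absurd h5 h6
          · exact absurd (hs _ _ (h2 _ h5)) h7
        rw [h5 _ h4, h5 _ hy1] at hy2
        exact hD _ _ hy2 rfl
      · intro m hm
        omega
    have hne : L.Nonempty := by
      rw [← Finset.card_pos, hL]; omega
    obtain ⟨x0, hx0⟩ := hne
    rw [grundy, ← mex_st]
    congr 1
    ext n
    simp only [Set.mem_ofPred_eq]
    constructor
    · rintro ⟨v, hv, rfl⟩
      rcases h.mem v with h3 | h3
      · right; exact hB v h3
      · left; exact hA v h3
    · rintro (rfl | rfl)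
      · obtain ⟨v, h3, h4⟩ := h.legal hD (Or.inr hx0) (Or.inl rfl) (h2 _ hx0)
        exact ⟨v, h4, hA v (h3 ▸ hx0)⟩
      · obtain ⟨v, h3, h4⟩ := h.legal hD (Or.inl rfl) (Or.inr hx0) (hs _ _ (h2 _ hx0))
        exact ⟨v, h4, hB v h3⟩

end Rep

section Core

variable {X : Type} (κ : X → Bool) (E : X → X → Prop)

/-- the vertices which remain after the move at `x` -/
noncomputable def nxt (U : Finset X) (x : X) : Finset X :=
  U.filter fun y => y ≠ x ∧ (κ y = κ x ∨ E x y)

/-- the number of elements of `U` of colour `s` -/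
noncomputable def cd (U : Finset X) (s : Bool) : ℕ := (U.filter fun y => κ y = s).card

theorem mem_nxt {U : Finset X} {x y : X} :
    y ∈ nxt κ E U x ↔ y ∈ U ∧ y ≠ x ∧ (κ y = κ x ∨ E x y) := by
  unfold nxt; rw [Finset.mem_filter]

theorem nxt_card {U : Finset X} {x : X} (h : x ∈ U) : (nxt κ E U x).card < U.card := by
  apply Finset.card_lt_card
  unfold nxt
  rw [Finset.ssubset_iff_of_subset (Finset.filter_subset _ _)]
  exact ⟨x, h, by simp⟩

/-- the Grundy value of the bipartite graph on `U`, coloured by `κ`, with `p s` additional vertices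
of colour `s`, in which two vertices of different colours are adjacent unless they are in `U` and
related by `E` -/
noncomputable def val (U : Finset X) (p : Bool → ℕ) : ℕ :=
  mex {n | (∃ x, ∃ _ : x ∈ U, val (nxt κ E U x) (Function.update p (!κ x) 1) = n) ∨
    ∃ s : Bool, st (cd κ U s + p s - 1) = n}
termination_by U.card
decreasing_by exact nxt_card κ E ‹_›

theorem val_finite (U : Finset X) (p : Bool → ℕ) :
    {n | (∃ x, ∃ _ : x ∈ U, val κ E (nxt κ E U x) (Function.update p (!κ x) 1) = n) ∨
    ∃ s : Bool, st (cd κ U s + p s - 1) = n}.Finite := by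
  apply Set.Finite.union
  · apply (U.finite_toSet.image
      (fun x => val κ E (nxt κ E U x) (Function.update p (!κ x) 1))).subset
    rintro n ⟨x, hx, rfl⟩
    exact ⟨x, hx, rfl⟩
  · exact Set.finite_range (fun s : Bool => st (cd κ U s + p s - 1))

/-- the value depends on the numbers `p s ≥ 2` through their parities only -/
theorem val_par : ∀ (n : ℕ) (U : Finset X) (p p' : Bool → ℕ), U.card = n →
    (∀ t, p t = p' t ∨ (2 ≤ p t ∧ 2 ≤ p' t ∧ p t % 2 = p' t % 2)) →
    val κ E U p = val κ E U p' := by
  intro n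
  induction n using Nat.strong_induction_on with
  | _ n ih =>
    intro U p p' hU h
    have h1 : ∀ x ∈ U, val κ E (nxt κ E U x) (Function.update p (!κ x) 1) =
        val κ E (nxt κ E U x) (Function.update p' (!κ x) 1) := by
      intro x hx
      apply ih _ (hU ▸ nxt_card κ E hx) _ _ _ rfl
      intro t
      by_cases ht : t = !κ x
      · left; rw [ht, Function.update_self, Function.update_self]
      · rw [Function.update_of_ne ht, Function.update_of_ne ht]; exact h t
    have h2 : ∀ s, st (cd κ U s + p s - 1) = st (cd κ U s + p' s - 1) := by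
      intro s
      rcases h s with h3 | ⟨h3, h4, h5⟩
      · rw [h3]
      · apply st_par <;> omega
    rw [val, val]
    congr 1
    ext n
    simp only [Set.mem_ofPred_eq]
    constructor
    · rintro (⟨x, hx, rfl⟩ | ⟨s, rfl⟩)
      · left; exact ⟨x, hx, (h1 x hx).symm⟩
      · right; exact ⟨s, (h2 s).symm⟩
    · rintro (⟨x, hx, rfl⟩ | ⟨s, rfl⟩)
      · left; exact ⟨x, hx, h1 x hx⟩
      · right; exact ⟨s, h2 s⟩

theorem val_star : ∀ (n : ℕ) (U : Finset X) (p : Bool → ℕ) (s : Bool), U.card = n →
    (∀ x ∈ U, κ x = s) → p (!s) = 1 → 1 ≤ p s → val κ E U p = st (U.card + p s) := by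
  intro n
  induction n with
  | zero =>
    intro U p s hU h1 h2 h3
    rw [Finset.card_eq_zero] at hU
    subst hU
    rw [val, Finset.card_empty, zero_add]
    obtain ⟨k, hk⟩ : ∃ k, p s = k + 1 := ⟨p s - 1, by omega⟩
    rw [hk, ← mex_st]
    congr 1
    ext n
    simp only [Set.mem_ofPred_eq, cd, Finset.filter_empty, Finset.card_empty, zero_add,
      Finset.notMem_empty, IsEmpty.exists_iff, exists_false, false_or]
    constructor
    · rintro ⟨t, rfl⟩
      by_cases ht : t = s
      · left; rw [ht, hk]; rfl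
      · right
        have : t = !s := by cases t <;> cases s <;> simp_all
        rw [this, h2]; rfl
    · rintro (rfl | rfl)
      · exact ⟨s, by rw [hk]; rfl⟩
      · exact ⟨!s, by rw [h2]; rfl⟩
  | succ n ih =>
    intro U p s hU h1 h2 h3
    have hcd : cd κ U s = U.card := by
      unfold cd; rw [Finset.filter_true_of_mem h1]
    have hcd2 : cd κ U (!s) = 0 := by
      unfold cd
      rw [Finset.card_eq_zero, Finset.filter_eq_empty_iff]
      intro x hx h4
      rw [h1 x hx] at h4
      cases s <;> simp at h4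
    have hn : ∀ x ∈ U, nxt κ E U x = U.erase x := by
      intro x hx
      ext y
      simp only [nxt, Finset.mem_filter, Finset.mem_erase]
      constructor
      · rintro ⟨h4, h5, _⟩; exact ⟨h5, h4⟩
      · rintro ⟨h4, h5⟩; exact ⟨h5, h4, Or.inl ((h1 y h5).trans (h1 x hx).symm)⟩
    have hv : ∀ x ∈ U, val κ E (nxt κ E U x) (Function.update p (!κ x) 1) = st (n + p s) := by
      intro x hx
      have h4 : Function.update p (!κ x) 1 = p := by
        rw [h1 x hx, ← h2, Function.update_eq_self]
      have h5 : (U.erase x).card = n := by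
        rw [Finset.card_erase_of_mem hx, hU]; rfl
      rw [h4, hn x hx, ih (U.erase x) p s h5
        (fun y hy => h1 y (Finset.mem_of_mem_erase hy)) h2 h3, h5]
    have hne : U.Nonempty := by
      rw [← Finset.card_pos, hU]; omega
    obtain ⟨x0, hx0⟩ := hne
    rw [val, show U.card + p s = (n + p s) + 1 by omega, ← mex_st]
    congr 1
    ext m
    simp only [Set.mem_ofPred_eq]
    constructor
    · rintro (⟨x, hx, rfl⟩ | ⟨t, rfl⟩)
      · left; exact hv x hx
      · by_cases ht : t = s
        · left
          rw [ht, hcd, hU]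
          congr 1
          omega
        · right
          have : t = !s := by cases t <;> cases s <;> simp_all
          rw [this, hcd2, h2]; rfl
    · rintro (rfl | rfl)
      · left; exact ⟨x0, hx0, hv x0 hx0⟩
      · right; exact ⟨!s, by rw [hcd2, h2]; rfl⟩

theorem val_absorb (hE : ∀ x y, E x y → E y x) : ∀ (n : ℕ) (U : Finset X) (p : Bool → ℕ) (x : X),
    U.card = n → x ∈ U → (∀ s, 1 ≤ p s) → (∀ y ∈ U, κ y ≠ κ x → ¬ E x y) →
    val κ E U p = val κ E (U.erase x) (Function.update p (κ x) (p (κ x) + 1)) := by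
  intro n
  induction n using Nat.strong_induction_on with
  | _ n ih =>
    intro U p x hU hx hp h
    have hcd : cd κ U (κ x) = cd κ (U.erase x) (κ x) + 1 := by
      unfold cd
      rw [Finset.filter_erase, Finset.card_erase_of_mem (by simp [hx])]
      have : 0 < (U.filter fun y => κ y = κ x).card := Finset.card_pos.2 ⟨x, by simp [hx]⟩
      omega
    have hcd2 : ∀ s, s ≠ κ x → cd κ U s = cd κ (U.erase x) s := by
      intro s hs
      unfold cd
      rw [Finset.filter_erase, Finset.erase_eq_of_notMem]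
      simp only [Finset.mem_filter, not_and]
      intro _ h1
      exact hs h1.symm
    have hval : val κ E (nxt κ E U x) (Function.update p (!κ x) 1) =
        st (cd κ U (κ x) + p (κ x) - 1) := by
      have h1 : κ x ≠ !κ x := by cases κ x <;> simp
      have h2 : nxt κ E U x = (U.filter fun y => κ y = κ x).erase x := by
        ext y
        simp only [nxt, Finset.mem_filter, Finset.mem_erase]
        constructor
        · rintro ⟨h3, h4, h5⟩
          refine ⟨h4, h3, ?_⟩
          rcases h5 with h5 | h5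
          · exact h5
          · by_contra h6
            exact h y h3 h6 h5
        · rintro ⟨h3, h4, h5⟩; exact ⟨h4, h3, Or.inl h5⟩
      rw [val_star κ E _ (nxt κ E U x) (Function.update p (!κ x) 1) (κ x) rfl ?_ ?_ ?_]
      · rw [Function.update_of_ne h1, h2, Finset.card_erase_of_mem (by simp [hx])]
        have : 0 < (U.filter fun y => κ y = κ x).card := Finset.card_pos.2 ⟨x, by simp [hx]⟩
        unfold cd
        congr 1
        omega
      · intro y hy
        rw [h2] at hy
        simp only [Finset.mem_erase, Finset.mem_filter] at hy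
        exact hy.2.2
      · rw [Function.update_self]
      · rw [Function.update_of_ne h1]; exact hp _
    have hy : ∀ y ∈ U, y ≠ x → val κ E (nxt κ E U y) (Function.update p (!κ y) 1) =
        val κ E (nxt κ E (U.erase x) y)
          (Function.update (Function.update p (κ x) (p (κ x) + 1)) (!κ y) 1) := by
      intro y hy hyx
      by_cases h1 : κ y = κ x
      · have h2 : κ x ≠ !κ y := by rw [h1]; cases κ x <;> simp
        have h3 : nxt κ E (U.erase x) y = (nxt κ E U y).erase x := by
          unfold nxt; rw [Finset.filter_erase]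
        have h4 : x ∈ nxt κ E U y := by
          simp only [nxt, Finset.mem_filter]
          exact ⟨hx, hyx.symm, Or.inl h1.symm⟩
        rw [h3, ih _ (hU ▸ nxt_card κ E hy) _ _ x rfl h4 ?_ ?_, Function.update_of_ne h2,
          Function.update_comm h2]
        · intro s
          by_cases hs : s = !κ y
          · rw [hs, Function.update_self]
          · rw [Function.update_of_ne hs]; exact hp s
        · intro z hz
          exact h z (Finset.mem_of_mem_filter _ hz)
      · have h2 : κ x = !κ y := by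
          cases h3 : κ x <;> cases h4 : κ y <;> simp_all
        have h3 : nxt κ E (U.erase x) y = nxt κ E U y := by
          unfold nxt
          rw [Finset.filter_erase, Finset.erase_eq_of_notMem]
          simp only [Finset.mem_filter, not_and]
          rintro _ _ (h5 | h5)
          · exact h1 h5.symm
          · exact h y hy h1 (hE _ _ h5)
        rw [h3, h2, Function.update_idem]
    rw [val, val]
    congr 1
    ext m
    simp only [Set.mem_ofPred_eq]
    have hs : ∀ s, cd κ (U.erase x) s + Function.update p (κ x) (p (κ x) + 1) s - 1 =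
        cd κ U s + p s - 1 := by
      intro s
      by_cases h1 : s = κ x
      · rw [h1, Function.update_self, hcd]; congr 1; omega
      · rw [Function.update_of_ne h1, hcd2 s h1]
    constructor
    · rintro (⟨y, hy1, rfl⟩ | ⟨t, rfl⟩)
      · by_cases h1 : y = x
        · right
          refine ⟨κ x, ?_⟩
          rw [hs, h1, hval]
        · left
          exact ⟨y, Finset.mem_erase.2 ⟨h1, hy1⟩, (hy y hy1 h1).symm⟩
      · right; exact ⟨t, by rw [hs]⟩
    · rintro (⟨y, hy1, rfl⟩ | ⟨t, rfl⟩)
      · left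
        exact ⟨y, Finset.mem_of_mem_erase hy1,
          hy y (Finset.mem_of_mem_erase hy1) (Finset.ne_of_mem_erase hy1)⟩
      · right; exact ⟨t, by rw [hs]⟩

theorem val_absorbs (hE : ∀ x y, E x y → E y x) (s : Bool) (Z : Finset X) :
    ∀ (U : Finset X) (p : Bool → ℕ), Z ⊆ U → (∀ s, 1 ≤ p s) → (∀ x ∈ Z, κ x = s) →
    (∀ x ∈ Z, ∀ y ∈ U, κ y ≠ s → ¬ E x y) →
    val κ E U p = val κ E (U \ Z) (Function.update p s (p s + Z.card)) := by
  induction Z using Finset.induction_on with
  | empty =>
    intro U p h1 h2 h3 h4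
    simp
  | insert z Z hz ih =>
    intro U p h1 h2 h3 h4
    have h5 : κ z = s := h3 z (Finset.mem_insert_self _ _)
    rw [val_absorb κ E hE _ U p z rfl (h1 (Finset.mem_insert_self _ _)) h2
      (fun y hy hyz => h4 z (Finset.mem_insert_self _ _) y hy (h5 ▸ hyz)),
      ih (U.erase z) _ ?_ ?_ ?_ ?_, h5, Function.update_self, Function.update_idem,
      Finset.card_insert_of_notMem hz]
    · congr 1
      · ext y
        simp only [Finset.mem_sdiff, Finset.mem_erase, Finset.mem_insert]
        tauto
      · congr 1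
        omega
    · intro y hy
      exact Finset.mem_erase.2 ⟨fun h => hz (h ▸ hy), h1 (Finset.mem_insert_of_mem hy)⟩
    · intro t
      by_cases ht : t = κ z
      · rw [ht, Function.update_self]; omega
      · rw [Function.update_of_ne ht]; exact h2 t
    · intro x hx; exact h3 x (Finset.mem_insert_of_mem hx)
    · intro x hx y hy
      exact h4 x (Finset.mem_insert_of_mem hx) y (Finset.mem_of_mem_erase hy)

theorem val_absorbs' (hE : ∀ x y, E x y → E y x) (s : Bool) (Z : Finset X)
    (U U' : Finset X) (p : Bool → ℕ) (hU : ∀ y, y ∈ U' ↔ y ∈ U ∧ y ∉ Z) (hZ : Z ⊆ U)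
    (hp : ∀ s, 1 ≤ p s) (hκ : ∀ x ∈ Z, κ x = s) (h : ∀ x ∈ Z, ∀ y ∈ U, κ y ≠ s → ¬ E x y) :
    val κ E U p = val κ E U' (Function.update p s (p s + Z.card)) := by
  have h1 : U' = U \ Z := by
    ext y; rw [hU, Finset.mem_sdiff]
  rw [h1]
  exact val_absorbs κ E hE s Z U p hZ hp hκ h

theorem cd_absorb (s : Bool) (Z U U' : Finset X) (hU : ∀ y, y ∈ U' ↔ y ∈ U ∧ y ∉ Z) (hZ : Z ⊆ U)
    (hκ : ∀ x ∈ Z, κ x = s) : cd κ U s = cd κ U' s + Z.card := by
  unfold cd
  have h3 : (U'.filter fun y => κ y = s) = (U.filter fun y => κ y = s) \ Z := by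
    ext y
    simp only [Finset.mem_filter, Finset.mem_sdiff, hU]
    tauto
  have h4 : Z ⊆ U.filter fun y => κ y = s := by
    intro y hy
    rw [Finset.mem_filter]
    exact ⟨hZ hy, hκ y hy⟩
  rw [h3, Finset.card_sdiff_of_subset h4]
  have := Finset.card_le_card h4
  omega

theorem cd_nxt {U : Finset X} {x : X} (hx : x ∈ U) :
    cd κ (nxt κ E U x) (κ x) + 1 = cd κ U (κ x) := by
  have h2 : ((nxt κ E U x).filter fun y => κ y = κ x) =
      (U.filter fun y => κ y = κ x).erase x := by
    ext y
    rw [Finset.mem_filter, mem_nxt, Finset.mem_erase, Finset.mem_filter]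
    tauto
  have h3 : x ∈ U.filter fun y => κ y = κ x := by
    rw [Finset.mem_filter]
    exact ⟨hx, rfl⟩
  unfold cd
  rw [h2, Finset.card_erase_of_mem h3]
  have := Finset.card_pos.2 ⟨x, h3⟩
  omega

theorem val_iso {Y : Type} (κ' : Y → Bool) (E' : Y → Y → Prop) (σ : X ↪ Y) (b : Bool)
    (hκ : ∀ x, κ' (σ x) = (b ^^ κ x)) (hE : ∀ x y, E' (σ x) (σ y) ↔ E x y) :
    ∀ (n : ℕ) (U : Finset X) (p p' : Bool → ℕ), U.card = n → (∀ s, p' (b ^^ s) = p s) →
    val κ' E' (U.map σ) p' = val κ E U p := by
  have hb : ∀ s t : Bool, (b ^^ s) = (b ^^ t) ↔ s = t := by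
    cases b <;> decide
  have hb2 : ∀ s : Bool, ∃ t, s = (b ^^ t) := by
    intro s; exact ⟨b ^^ s, by cases b <;> cases s <;> rfl⟩
  have hb3 : ∀ s : Bool, (!(b ^^ s)) = (b ^^ !s) := by
    cases b <;> decide
  intro n
  induction n using Nat.strong_induction_on with
  | _ n ih =>
    intro U p p' hU hp
    have h1 : ∀ x ∈ U, val κ' E' (nxt κ' E' (U.map σ) (σ x)) (Function.update p' (!κ' (σ x)) 1) =
        val κ E (nxt κ E U x) (Function.update p (!κ x) 1) := by
      intro x hx
      have h2 : nxt κ' E' (U.map σ) (σ x) = (nxt κ E U x).map σ := by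
        ext y
        simp only [nxt, Finset.mem_filter, Finset.mem_map]
        constructor
        · rintro ⟨⟨z, hz, rfl⟩, h3, h4⟩
          refine ⟨z, ⟨hz, fun h => h3 (by rw [h]), ?_⟩, rfl⟩
          rw [hκ, hκ, hb, hE] at h4
          exact h4
        · rintro ⟨z, ⟨hz, h3, h4⟩, rfl⟩
          refine ⟨⟨z, hz, rfl⟩, fun h => h3 (σ.injective h), ?_⟩
          rw [hκ, hκ, hb, hE]
          exact h4
      rw [h2]
      apply ih _ (hU ▸ nxt_card κ E hx) _ _ _ rfl
      intro s
      rw [hκ, hb3]
      by_cases hs : s = !κ x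
      · rw [hs, Function.update_self, Function.update_self]
      · rw [Function.update_of_ne hs, Function.update_of_ne (fun h => hs ((hb _ _).1 h))]
        exact hp s
    have h2 : ∀ s, st (cd κ' (U.map σ) (b ^^ s) + p' (b ^^ s) - 1) = st (cd κ U s + p s - 1) := by
      intro s
      have h3 : cd κ' (U.map σ) (b ^^ s) = cd κ U s := by
        unfold cd
        rw [Finset.filter_map, Finset.card_map]
        congr 1
        ext y
        simp only [Finset.mem_filter, Function.comp_apply, hκ, hb]
      rw [h3, hp]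
    rw [val, val]
    congr 1
    ext m
    simp only [Set.mem_ofPred_eq]
    constructor
    · rintro (⟨y, hy1, rfl⟩ | ⟨t, rfl⟩)
      · obtain ⟨x, hx, rfl⟩ := Finset.mem_map.1 hy1
        left; exact ⟨x, hx, (h1 x hx).symm⟩
      · obtain ⟨s, rfl⟩ := hb2 t
        right; exact ⟨s, (h2 s).symm⟩
    · rintro (⟨y, hy1, rfl⟩ | ⟨t, rfl⟩)
      · left; exact ⟨σ y, Finset.mem_map_of_mem _ hy1, h1 y hy1⟩
      · right; exact ⟨b ^^ t, h2 t⟩

theorem cd_iso {Y : Type} (κ' : Y → Bool) (σ : X ↪ Y) (b : Bool)
    (hκ : ∀ x, κ' (σ x) = (b ^^ κ x)) (U : Finset X) (s : Bool) :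
    cd κ' (U.map σ) (b ^^ s) = cd κ U s := by
  have hb : ∀ s t : Bool, (b ^^ s) = (b ^^ t) ↔ s = t := by
    cases b <;> decide
  unfold cd
  rw [Finset.filter_map, Finset.card_map]
  congr 1
  ext y
  simp only [Finset.mem_filter, Function.comp_apply, hκ, hb]

/-- the colouring of the core vertices and the additional vertices -/
def kap : X ⊕ (Bool × ℕ) → Bool := Sum.elim κ Prod.fst

/-- the adjacency of the core vertices and the additional vertices -/
def DD (w w' : X ⊕ (Bool × ℕ)) : Prop :=
  kap κ w ≠ kap κ w' ∧ ∀ x y, w = Sum.inl x → w' = Sum.inl y → ¬ E x y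

/-- the core vertices and the additional vertices -/
def MM (U : Finset X) (p : Bool → ℕ) : Set (X ⊕ (Bool × ℕ)) :=
  {w | (∀ x, w = Sum.inl x → x ∈ U) ∧ ∀ s i, w = Sum.inr (s, i) → i < p s}

theorem mem_MM_inl {U : Finset X} {p : Bool → ℕ} {x : X} :
    (Sum.inl x : X ⊕ (Bool × ℕ)) ∈ MM U p ↔ x ∈ U := by
  simp [MM]

theorem mem_MM_inr {U : Finset X} {p : Bool → ℕ} {s : Bool} {i : ℕ} :
    (Sum.inr (s, i) : X ⊕ (Bool × ℕ)) ∈ MM U p ↔ i < p s := by
  simp only [MM, Set.mem_ofPred_eq, reduceCtorEq, false_imp_iff, implies_true, true_and,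
    Sum.inr.injEq, Prod.mk.injEq]
  constructor
  · intro h; exact h s i ⟨rfl, rfl⟩
  · rintro h s' i' ⟨rfl, rfl⟩; exact h

theorem DD_inl_inl {x y : X} : DD κ E (Sum.inl x) (Sum.inl y) ↔ κ x ≠ κ y ∧ ¬ E x y := by
  simp [DD, kap]

theorem DD_inl_inr {x : X} {s : Bool} {i : ℕ} :
    DD κ E (Sum.inl x) (Sum.inr (s, i)) ↔ κ x ≠ s := by
  simp [DD, kap]

theorem DD_inr_inl {x : X} {s : Bool} {i : ℕ} :
    DD κ E (Sum.inr (s, i)) (Sum.inl x) ↔ s ≠ κ x := by
  simp [DD, kap]

theorem DD_inr_inr {s t : Bool} {i j : ℕ} :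
    DD κ E (Sum.inr (s, i)) (Sum.inr (t, j)) ↔ s ≠ t := by
  simp [DD, kap]

theorem DD_inr {s : Bool} {i : ℕ} {w : X ⊕ (Bool × ℕ)} :
    DD κ E w (Sum.inr (s, i)) ↔ kap κ w ≠ s := by
  simp [DD, kap]

theorem DD_col (w w' : X ⊕ (Bool × ℕ)) (h : DD κ E w w') : kap κ w ≠ kap κ w' := h.1

theorem DD_symm (hE : ∀ x y, E x y → E y x) (w w' : X ⊕ (Bool × ℕ)) (h : DD κ E w w') :
    DD κ E w' w := ⟨h.1.symm, fun x y h1 h2 h3 => h.2 y x h2 h1 (hE _ _ h3)⟩

theorem rep_val {V : Type*} [Fintype V] {G : SimpleGraph V} (hE : ∀ x y, E x y → E y x) :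
    ∀ (n : ℕ) (U : Finset X) (p : Bool → ℕ) (c : V → X ⊕ (Bool × ℕ)) (χ : V → Bool),
      U.card = n → (∀ s, 1 ≤ p s) → Rep G χ (kap κ) (DD κ E) (MM U p) c →
      grundy G χ = val κ E U p := by
  intro n
  induction n using Nat.strong_induction_on with
  | _ n ih =>
    intro U p c χ hU hp h
    have hnot : ∀ a : Bool, (!a) ≠ a := by decide
    -- moves at core vertices
    have hA : ∀ v x, c v = Sum.inl x → grundy G (recolour G χ v) =
        val κ E (nxt κ E U x) (Function.update p (!κ x) 1) := by
      intro v x hv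
      have hx : x ∈ U := by
        have := h.mem v
        rw [hv, mem_MM_inl] at this
        exact this
      have hf : (Sum.inr (!κ x, 0) : X ⊕ (Bool × ℕ)) ∈ MM U p := mem_MM_inr.2 (hp _)
      have h1 := h.step (DD_col κ E) (DD_symm κ E hE) (w := Sum.inl x) (f := Sum.inr (!κ x, 0))
        (v := v) hv (hnot _)
        (by
          intro w' hw' hw2 hw3
          have hw4 : DD κ E w' (Sum.inr (!κ x, 0)) := by
            rw [DD_inr, hw3]; exact (hnot _).symm
          exact ⟨fun _ => ⟨_, hf, (DD_inl_inr κ E).2 (hnot _).symm, hw4⟩, fun _ => hw4⟩)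
        (fun _ => (DD_inl_inr κ E).2 (hnot _).symm)
      have h2 : {w' | w' = Sum.inr (!κ x, 0) ∨ (w' ∈ MM U p ∧ w' ≠ Sum.inl x ∧
          ¬ DD κ E (Sum.inl x) w')} = MM (nxt κ E U x) (Function.update p (!κ x) 1) := by
        ext w'
        simp only [Set.mem_ofPred_eq]
        rcases w' with y | ⟨s, i⟩
        · rw [mem_MM_inl, mem_MM_inl, DD_inl_inl]
          simp only [nxt, Finset.mem_filter, reduceCtorEq, false_or, ne_eq, Sum.inl.injEq,
            not_and, not_not]
          constructor
          · rintro ⟨h3, h4, h5⟩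
            refine ⟨h3, h4, ?_⟩
            by_cases h6 : κ x = κ y
            · left; exact h6.symm
            · right; exact h5 h6
          · rintro ⟨h3, h4, h5⟩
            refine ⟨h3, h4, fun h6 => ?_⟩
            rcases h5 with h5 | h5
            · exact absurd h5.symm h6
            · exact h5
        · rw [mem_MM_inr, mem_MM_inr, DD_inl_inr]
          simp only [Sum.inr.injEq, Prod.mk.injEq, ne_eq, reduceCtorEq, not_false_eq_true,
            true_and, not_not]
          by_cases hs : s = !κ x
          · subst hs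
            rw [Function.update_self]
            constructor
            · rintro (⟨_, rfl⟩ | ⟨_, h3⟩)
              · omega
              · exact absurd h3.symm (hnot _)
            · intro h3
              left; exact ⟨rfl, by omega⟩
          · rw [Function.update_of_ne hs]
            have hs2 : κ x = s := by
              cases h3 : κ x <;> cases s <;> simp_all
            constructor
            · rintro (⟨h3, _⟩ | ⟨h3, _⟩)
              · exact absurd h3 hs
              · exact h3
            · intro h3; right; exact ⟨h3, hs2⟩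
      rw [h2] at h1
      refine ih _ (hU ▸ nxt_card κ E hx) _ _ _ _ rfl ?_ h1
      intro s
      by_cases hs : s = !κ x
      · rw [hs, Function.update_self]
      · rw [Function.update_of_ne hs]; exact hp s
    -- moves at the additional vertices
    have hB : ∀ v s i, c v = Sum.inr (s, i) → grundy G (recolour G χ v) =
        st (cd κ U s + p s - 1) := by
      intro v s i hv
      have hi : i < p s := by
        have := h.mem v
        rw [hv, mem_MM_inr] at this
        exact this
      have hf : (Sum.inr (!s, 0) : X ⊕ (Bool × ℕ)) ∈ MM U p := mem_MM_inr.2 (hp _)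
      have h1 := h.step (DD_col κ E) (DD_symm κ E hE) (w := Sum.inr (s, i)) (f := Sum.inr (!s, 0))
        (v := v) hv (hnot _)
        (by
          intro w' hw' hw2 hw3
          have hw4 : DD κ E w' (Sum.inr (!s, 0)) := by
            rw [DD_inr, hw3]; exact (hnot _).symm
          exact ⟨fun _ => ⟨_, hf, (DD_inr_inr κ E).2 (hnot _).symm, hw4⟩, fun _ => hw4⟩)
        (fun _ => (DD_inr_inr κ E).2 (hnot _).symm)
      let L0 : Finset (X ⊕ (Bool × ℕ)) := (U.filter fun y => κ y = s).disjSum
        ((range (p s)).map ⟨fun j => (s, j), fun a b hab => by simpa using hab⟩)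
      have hL0 : ∀ w', w' ∈ L0 ↔ w' ∈ MM U p ∧ kap κ w' = s := by
        intro w'
        rcases w' with y | ⟨t, j⟩
        · rw [mem_MM_inl, Finset.inl_mem_disjSum, Finset.mem_filter]
          rfl
        · rw [mem_MM_inr, Finset.inr_mem_disjSum, Finset.mem_map]
          simp only [Finset.mem_range]
          constructor
          · rintro ⟨a, h3, h4⟩
            obtain ⟨rfl, rfl⟩ := Prod.mk.inj h4
            exact ⟨h3, rfl⟩
          · rintro ⟨h3, h4⟩
            have h5 : t = s := h4
            subst h5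
            exact ⟨j, h3, rfl⟩
      have hmem : (Sum.inr (s, i) : X ⊕ (Bool × ℕ)) ∈ L0 := (hL0 _).2 ⟨mem_MM_inr.2 hi, rfl⟩
      have hset : {x | x = Sum.inr (!s, 0) ∨ x ∈ MM U p ∧ x ≠ Sum.inr (s, i) ∧
          ¬ DD κ E (Sum.inr (s, i)) x} =
          {x | x = Sum.inr (!s, 0) ∨ x ∈ L0.erase (Sum.inr (s, i))} := by
        ext w'
        simp only [Set.mem_ofPred_eq, Finset.mem_erase, hL0]
        have h3 : ¬ DD κ E (Sum.inr (s, i)) w' ↔ kap κ w' = s := by
          constructor
          · intro h3
            by_contra h4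
            exact h3 (DD_symm κ E hE _ _ ((DD_inr κ E).2 h4))
          · intro h3 h4
            exact (DD_inr κ E).1 (DD_symm κ E hE _ _ h4) h3
        rw [h3]
        tauto
      rw [hset] at h1
      refine star_val (DD_col κ E) (DD_symm κ E hE) _ (L0.erase (Sum.inr (s, i)))
        (Sum.inr (!s, 0)) _ _ ?_ ?_ ?_ h1
      · rw [Finset.card_erase_of_mem hmem, Finset.card_disjSum, Finset.card_map,
          Finset.card_range]
        rfl
      · intro w' hw'
        rw [((hL0 _).1 (Finset.mem_of_mem_erase hw')).2]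
        exact (hnot _).symm
      · intro w' hw'
        rw [DD_inr, ((hL0 _).1 (Finset.mem_of_mem_erase hw')).2]
        exact (hnot _).symm
    rw [grundy, val]
    congr 1
    ext m
    simp only [Set.mem_ofPred_eq]
    constructor
    · rintro ⟨v, hv, rfl⟩
      rcases hc : c v with x | ⟨s, i⟩
      · left
        refine ⟨x, ?_, (hA v x hc).symm⟩
        have := h.mem v
        rw [hc, mem_MM_inl] at this
        exact this
      · right
        exact ⟨s, (hB v s i hc).symm⟩
    · rintro (⟨x, hx, rfl⟩ | ⟨s, rfl⟩)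
      · obtain ⟨v, h3, h4⟩ := h.legal (DD_col κ E) (x := Sum.inl x) (y := Sum.inr (!κ x, 0))
          (mem_MM_inl.2 hx) (mem_MM_inr.2 (hp _)) ((DD_inl_inr κ E).2 (hnot _).symm)
        exact ⟨v, h4, hA v x h3⟩
      · obtain ⟨v, h3, h4⟩ := h.legal (DD_col κ E) (x := Sum.inr (s, 0)) (y := Sum.inr (!s, 0))
          (mem_MM_inr.2 (hp _)) (mem_MM_inr.2 (hp _)) ((DD_inr_inr κ E).2 (hnot _).symm)
        exact ⟨v, h4, hB v s 0 h3⟩

theorem realise (hE : ∀ x y, E x y → E y x) (U : Finset X) (p : Bool → ℕ) (hp : ∀ s, 1 ≤ p s) :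
    ∃ (V : Type) (_ : Fintype V) (G : SimpleGraph V) (χ : V → Bool), G.Connected ∧
      grundy G χ = val κ E U p := by
  have hfin : (MM U p).Finite := by
    apply ((U.map Function.Embedding.inl) ∪ (((univ : Finset Bool) ×ˢ
      range (p true + p false)).map Function.Embedding.inr)).finite_toSet.subset
    intro w hw
    rcases w with x | ⟨s, i⟩
    · rw [mem_MM_inl] at hw
      simp [hw]
    · rw [mem_MM_inr] at hw
      have : i < p true + p false := by cases s <;> omega
      simp [this]
  have : Fintype (MM U p) := hfin.fintype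
  let G : SimpleGraph (MM U p) :=
    { Adj := fun a b => DD κ E a.1 b.1
      symm := ⟨fun a b h => DD_symm κ E hE _ _ h⟩
      loopless := ⟨fun a h => h.1 rfl⟩ }
  have hnot : ∀ a : Bool, (!a) ≠ a := by decide
  refine ⟨MM U p, this, G, fun a => kap κ a.1, ?_, ?_⟩
  · rw [SimpleGraph.connected_iff_exists_forall_reachable]
    refine ⟨⟨Sum.inr (true, 0), mem_MM_inr.2 (hp _)⟩, ?_⟩
    intro w
    by_cases hw : kap κ w.1 = true
    · have h1 : G.Adj ⟨Sum.inr (true, 0), mem_MM_inr.2 (hp _)⟩
        ⟨Sum.inr (false, 0), mem_MM_inr.2 (hp _)⟩ := (DD_inr_inr κ E).2 (by decide)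
      have h2 : G.Adj w ⟨Sum.inr (false, 0), mem_MM_inr.2 (hp _)⟩ :=
        (DD_inr κ E).2 (by rw [hw]; decide)
      exact h1.reachable.trans h2.symm.reachable
    · have h2 : G.Adj w ⟨Sum.inr (true, 0), mem_MM_inr.2 (hp _)⟩ := (DD_inr κ E).2 hw
      exact h2.symm.reachable
  · refine rep_val κ E hE _ U p Subtype.val _ rfl hp ⟨?_, ?_, ?_, ?_, ?_, ?_⟩
    · intro v; exact v.2
    · intro w hw; exact ⟨⟨w, hw⟩, rfl⟩
    · intro v; rfl
    · intro u v huv
      rw [Subtype.ext huv]
    · intro u v huv; right; exact huv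
    · intro x hx y hy hxy
      exact ⟨⟨x, hx⟩, ⟨y, hy⟩, rfl, rfl, hxy⟩

end Core

section Main

/-- the values of the positions with one additional vertex of colour `false`, at least two
additional vertices of colour `true`, and an even number of vertices of colour `true` -/
def Fam (n : ℕ) : Prop :=
  ∃ (κ : ℕ → Bool) (E : ℕ → ℕ → Prop) (U : Finset ℕ) (p : Bool → ℕ),
    (∀ x y, E x y → E y x) ∧ p false = 1 ∧ 2 ≤ p true ∧ (cd κ U true + p true) % 2 = 0 ∧
    val κ E U p = n

variable {I : Type} [Fintype I] (κ : I → ℕ → Bool) (E : I → ℕ → ℕ → Prop) (U : I → Finset ℕ)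

/-- the colouring of the combined position -/
def κG : Bool ⊕ (I × Option ℕ) → Bool
  | Sum.inl _ => true
  | Sum.inr (_, none) => true
  | Sum.inr (i, some a) => κ i a

/-- the relation of the combined position -/
def EG : Bool ⊕ (I × Option ℕ) → Bool ⊕ (I × Option ℕ) → Prop
  | Sum.inr (i, none), Sum.inr (j, some _) => i = j
  | Sum.inr (i, some _), Sum.inr (j, none) => i = j
  | Sum.inr (i, some a), Sum.inr (j, some b) => i = j ∧ E i a b
  | _, _ => False

/-- the core vertices of the combined position -/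
noncomputable def UG (D : Finset Bool) : Finset (Bool ⊕ (I × Option ℕ)) :=
  D.disjSum ((univ : Finset I).biUnion fun i =>
    (Finset.insertNone (U i)).map ⟨fun o => (i, o), fun a b hab => by simpa using hab⟩)

theorem mem_UG_inl {D : Finset Bool} {b : Bool} :
    (Sum.inl b : Bool ⊕ (I × Option ℕ)) ∈ UG U D ↔ b ∈ D := by
  simp [UG]

theorem mem_UG_none {D : Finset Bool} {i : I} :
    (Sum.inr (i, none) : Bool ⊕ (I × Option ℕ)) ∈ UG U D := by
  rw [UG, Finset.inr_mem_disjSum, Finset.mem_biUnion]
  exact ⟨i, Finset.mem_univ _, Finset.mem_map.2 ⟨none, Finset.none_mem_insertNone, rfl⟩⟩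

theorem mem_UG_some {D : Finset Bool} {i : I} {a : ℕ} :
    (Sum.inr (i, some a) : Bool ⊕ (I × Option ℕ)) ∈ UG U D ↔ a ∈ U i := by
  rw [UG, Finset.inr_mem_disjSum, Finset.mem_biUnion]
  constructor
  · rintro ⟨j, _, h⟩
    obtain ⟨o, ho, h2⟩ := Finset.mem_map.1 h
    obtain ⟨rfl, rfl⟩ := Prod.mk.inj h2
    exact Finset.some_mem_insertNone.1 ho
  · intro h
    exact ⟨i, Finset.mem_univ _, Finset.mem_map.2 ⟨some a, Finset.some_mem_insertNone.2 h, rfl⟩⟩

omit [Fintype I] in
theorem EG_symm (hE : ∀ i x y, E i x y → E i y x) (x y : Bool ⊕ (I × Option ℕ))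
    (h : EG E x y) : EG E y x := by
  rcases x with b | ⟨i, _ | a⟩ <;> rcases y with b' | ⟨j, _ | a'⟩ <;> simp only [EG] at h ⊢
  · exact h.symm
  · exact h.symm
  · obtain ⟨rfl, h⟩ := h
    exact ⟨rfl, hE _ _ _ h⟩

/-- the embedding of the block of index `i` -/
def blk (i : I) : ℕ ↪ Bool ⊕ (I × Option ℕ) :=
  ⟨fun a => Sum.inr (i, some a), fun a b hab => by simpa using hab⟩

theorem option_val (hE : ∀ i x y, E i x y → E i y x) (D : Finset Bool) (hD : false ∈ D)
    (hpar : cd (κG κ) (UG U D) true % 2 = 0) (i : I) (p q : Bool → ℕ) (hp1 : p true = 1)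
    (hq1 : q false = 1) (hq2 : 2 ≤ q true) (hq3 : (cd (κ i) (U i) true + q true) % 2 = 0) :
    val (κG κ) (EG E) (nxt (κG κ) (EG E) (UG U D) (Sum.inr (i, none)))
      (Function.update p false 1) = val (κ i) (E i) (U i) q := by
  set x0 : Bool ⊕ (I × Option ℕ) := Sum.inr (i, none) with hx0
  set T := nxt (κG κ) (EG E) (UG U D) x0 with hT
  set Z := T.filter (fun y => ∀ a, y ≠ Sum.inr (i, some a)) with hZ
  have hκ0 : κG κ x0 = true := rfl
  have hmT : ∀ y, y ∈ T ↔ y ∈ UG U D ∧ y ≠ x0 ∧ (κG κ y = true ∨ EG E x0 y) := by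
    intro y
    rw [hT, mem_nxt, hκ0]
  have hE0 : ∀ y, EG E x0 y → ∃ a, y = Sum.inr (i, some a) := by
    intro y hy
    rcases y with b' | ⟨j, _ | a'⟩ <;> simp only [hx0, EG] at hy
    subst hy
    exact ⟨a', rfl⟩
  have hZκ : ∀ x ∈ Z, κG κ x = true := by
    intro x hx
    rw [hZ, Finset.mem_filter, hmT] at hx
    rcases hx.1.2.2 with h | h
    · exact h
    · obtain ⟨a, ha⟩ := hE0 x h
      exact absurd ha (hx.2 a)
  have hZT : Z ⊆ T := Finset.filter_subset _ _
  have h1 : ∀ y, y ∈ (U i).map (blk i) ↔ y ∈ T ∧ y ∉ Z := by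
    intro y
    rw [Finset.mem_map]
    constructor
    · rintro ⟨a, ha, rfl⟩
      refine ⟨?_, ?_⟩
      · rw [hmT]
        refine ⟨(mem_UG_some U).2 ha, ?_, Or.inr rfl⟩
        intro h
        have := (Prod.mk.inj (Sum.inr.inj h)).2
        exact absurd this (by simp)
      · rw [hZ, Finset.mem_filter]
        rintro ⟨_, h⟩
        exact h a rfl
    · rintro ⟨h1, h2⟩
      rw [hZ, Finset.mem_filter] at h2
      push Not at h2
      obtain ⟨a, ha⟩ := h2 h1
      refine ⟨a, ?_, ha.symm⟩
      rw [hmT, ha, mem_UG_some] at h1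
      exact h1.1
  rw [val_absorbs' (κG κ) (EG E) (EG_symm E hE) true Z T _ (Function.update p false 1) h1 hZT ?_
    hZκ ?_]
  · set r := Function.update (Function.update p false 1) true
      (Function.update p false 1 true + Z.card) with hr
    have hr1 : r false = 1 := by
      rw [hr, Function.update_of_ne (by decide), Function.update_self]
    have hr2 : r true = 1 + Z.card := by
      rw [hr, Function.update_self, Function.update_of_ne (by decide), hp1]
    rw [val_iso (κ i) (E i) (κG κ) (EG E) (blk i) false (fun x => (Bool.false_xor _).symm)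
      (fun x y => ⟨fun h => h.2, fun h => ⟨rfl, h⟩⟩) _ (U i) r r rfl
      (fun s => by rw [Bool.false_xor])]
    apply val_par _ _ _ _ _ _ rfl
    -- parities
    have hc1 : cd (κG κ) T true + 1 = cd (κG κ) (UG U D) true :=
      cd_nxt (κG κ) (EG E) (x := x0) (mem_UG_none U)
    have hc2 : cd (κG κ) T true = cd (κ i) (U i) true + Z.card := by
      rw [cd_absorb (κG κ) true Z T _ h1 hZT hZκ]
      congr 1
      exact cd_iso (κ i) (κG κ) (blk i) false (fun x => (Bool.false_xor _).symm) (U i) true
    have hZ1 : 1 ≤ Z.card := by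
      apply Finset.card_pos.2
      refine ⟨Sum.inl false, ?_⟩
      rw [hZ, Finset.mem_filter, hmT]
      refine ⟨⟨(mem_UG_inl U).2 hD, by simp [hx0], Or.inl rfl⟩, by simp⟩
    intro t
    cases t
    · left; rw [hr1, hq1]
    · right
      rw [hr2]
      refine ⟨by omega, hq2, by omega⟩
  · intro s
    cases s
    · rw [Function.update_self]
    · rw [Function.update_of_ne (by decide), hp1]
  · intro x hx y hy hy2 h
    have hx2 := hx
    rw [hZ, Finset.mem_filter, hmT] at hx2
    rw [hmT] at hy
    obtain ⟨b, rfl⟩ : ∃ a, y = Sum.inr (i, some a) := by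
      rcases hy.2.2 with h3 | h3
      · exact absurd h3 hy2
      · exact hE0 y h3
    rcases x with b' | ⟨j, _ | a'⟩ <;> simp only [EG] at h
    · subst h
      exact hx2.1.2.1 rfl
    · obtain ⟨rfl, h⟩ := h
      exact hx2.2 a' rfl

theorem unbounded_val (N : ℕ) : ∃ (X : Type) (κ : X → Bool) (E : X → X → Prop) (U : Finset X)
    (p : Bool → ℕ), (∀ x y, E x y → E y x) ∧ (∀ s, 1 ≤ p s) ∧ N < val κ E U p := by
  by_contra hcon
  push Not at hcon
  let I := {n : Fin (N + 1) // Fam n.1}
  choose κ E U q hE hq1 hq2 hq3 hq4 using (fun i : I => i.2)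
  -- the combined position
  obtain ⟨D, hD, hpar⟩ : ∃ D : Finset Bool, false ∈ D ∧ cd (κG κ) (UG U D) true % 2 = 0 := by
    rcases Nat.mod_two_eq_zero_or_one (cd (κG κ) (UG U {false}) true) with h | h
    · exact ⟨{false}, by simp, h⟩
    · refine ⟨{true, false}, by simp, ?_⟩
      have h1 : UG U {true, false} = insert (Sum.inl true) (UG U {false}) := by
        ext y
        rcases y with b' | ⟨j, _ | a'⟩
        · simp only [mem_UG_inl, Finset.mem_insert, Finset.mem_singleton, Sum.inl.injEq]
        · rw [Finset.mem_insert]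
          exact ⟨fun _ => Or.inr (mem_UG_none U), fun _ => mem_UG_none U⟩
        · rw [mem_UG_some, Finset.mem_insert, mem_UG_some]
          simp
      have h2 : (Sum.inl true : Bool ⊕ (I × Option ℕ)) ∉
          (UG U {false}).filter fun y => κG κ y = true := by
        rw [Finset.mem_filter, mem_UG_inl]
        simp
      have h3 : cd (κG κ) (UG U {true, false}) true = cd (κG κ) (UG U {false}) true + 1 := by
        unfold cd
        rw [h1, Finset.filter_insert, if_pos (show κG κ (Sum.inl true) = true from rfl),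
          Finset.card_insert_of_notMem h2]
      rw [h3]
      omega
  let pG : Bool → ℕ := fun s => if s then 1 else 2 + cd (κG κ) (UG U D) false % 2
  set nG := val (κG κ) (EG E) (UG U D) pG with hnG
  have hpG : ∀ s, 1 ≤ pG s := by
    intro s
    cases s
    · show 1 ≤ 2 + cd (κG κ) (UG U D) false % 2
      omega
    · exact le_refl _
  have hle : nG ≤ N := hcon _ (κG κ) (EG E) (UG U D) pG (EG_symm E hE) hpG
  have hFam : Fam nG := by
    obtain ⟨f, hf⟩ := Countable.exists_injective_nat (Bool ⊕ (I × Option ℕ))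
    let κ' : ℕ → Bool := Function.extend f (fun y => !κG κ y) (fun _ => false)
    have hκ' : ∀ y, κ' (f y) = (true ^^ κG κ y) := by
      intro y
      show Function.extend f _ _ (f y) = _
      rw [hf.extend_apply, Bool.true_xor]
    refine ⟨κ', fun m n => ∃ x y, f x = m ∧ f y = n ∧ EG E x y,
      (UG U D).map ⟨f, hf⟩, fun s => pG (!s), ?_, rfl, ?_, ?_, ?_⟩
    · rintro m n ⟨x, y, h1, h2, h3⟩
      exact ⟨y, x, h2, h1, EG_symm E hE _ _ h3⟩
    · show 2 ≤ 2 + cd (κG κ) (UG U D) false % 2
      omega
    · have h1 : cd κ' ((UG U D).map ⟨f, hf⟩) true = cd (κG κ) (UG U D) false :=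
        cd_iso (κG κ) κ' ⟨f, hf⟩ true hκ' (UG U D) false
      rw [h1]
      show (cd (κG κ) (UG U D) false + (2 + cd (κG κ) (UG U D) false % 2)) % 2 = 0
      omega
    · rw [hnG]
      apply val_iso (κG κ) (EG E) κ' _ ⟨f, hf⟩ true hκ' _ _ (UG U D) pG _ rfl
      · intro s
        show pG (!(true ^^ s)) = pG s
        cases s <;> rfl
      · intro x y
        constructor
        · rintro ⟨x', y', h1, h2, h3⟩
          rw [hf h1, hf h2] at h3
          exact h3
        · intro h
          exact ⟨x, y, rfl, rfl, h⟩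
  let i0 : I := ⟨⟨nG, by omega⟩, hFam⟩
  have hopt := option_val κ E U hE D hD hpar i0 pG (q i0) rfl (hq1 i0) (hq2 i0) (hq3 i0)
  have h1 := mex_notMem (val_finite (κG κ) (EG E) (UG U D) pG)
  have h2 : nG = mex {n | (∃ x, ∃ _ : x ∈ UG U D, val (κG κ) (EG E)
      (nxt (κG κ) (EG E) (UG U D) x) (Function.update pG (!κG κ x) 1) = n) ∨
      ∃ s : Bool, st (cd (κG κ) (UG U D) s + pG s - 1) = n} := by
    rw [hnG, val]
  rw [← h2] at h1
  apply h1
  left
  refine ⟨Sum.inr (i0, none), mem_UG_none U, ?_⟩
  exact hopt.trans (hq4 i0)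

end Main

/-- Every natural number is the Grundy value of some position of 2-colour flag coloring; in
particular the Grundy values are unbounded. -/
theorem result :
    (∀ n : ℕ, ∃ (V : Type) (_ : Fintype V) (G : SimpleGraph V) (χ : V → Bool),
      G.Connected ∧ grundy G χ = n) ∧
    ¬ ∃ N : ℕ, ∀ (V : Type) (_ : Fintype V) (G : SimpleGraph V) (χ : V → Bool),
      G.Connected → grundy G χ ≤ N := by
  have h : ∀ n : ℕ, ∃ (V : Type) (_ : Fintype V) (G : SimpleGraph V) (χ : V → Bool),
      G.Connected ∧ grundy G χ = n := by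
    intro n
    obtain ⟨X, κ, E, U, p, hE, hp, h1⟩ := unbounded_val n
    obtain ⟨V, hV, G, χ, h2, h3⟩ := realise κ E hE U p hp
    rw [← h3, grundy] at h1
    obtain ⟨v, _, h4⟩ := mem_of_lt_mex h1
    exact ⟨V, hV, G, recolour G χ v, h2, h4⟩
  refine ⟨h, ?_⟩
  rintro ⟨N, hN⟩
  obtain ⟨V, hV, G, χ, h2, h3⟩ := h (N + 1)
  have := hN V hV G χ h2
  omega

end Pool.Agent.Results.MP_08830e_co.Unbounded
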